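import Mathlib
import Pool.Agent.H36.MR.Dual
import Pool.Agent.H36.MR.Free4

/-!
# Lipschitz retracts, biduals and Lipschitz-free spaces do not detect separable dual spaces
-/

open Set TopologicalSpace NormedSpace
open scoped NNReal ENNReal

namespace Pool.Agent.Results.MP_1c6527_an.MutualRetracts

open Pool.Agent.H36.MR

/-- `X` is linearly isomorphic to the dual of a normed space. -/
def IsDualSpace (X : Type) [NormedAddCommGroup X] [NormedSpace ℝ X] : Prop :=
  ∃ (Z : Type) (_ : NormedAddCommGroup Z) (_ : NormedSpace ℝ Z), Nonempty (X ≃L[ℝ] (Z →L[ℝ] ℝ))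

/-- The dual spaces of `X` and `Y` are linearly isomorphic. -/
def HaveIsomorphicDuals (X Y : Type) [NormedAddCommGroup X] [NormedSpace ℝ X]
    [NormedAddCommGroup Y] [NormedSpace ℝ Y] : Prop :=
  Nonempty (StrongDual ℝ X ≃L[ℝ] StrongDual ℝ Y)

/-- `Y` embeds linearly into `X` and is a Lipschitz retract of `X` under this embedding. -/
def IsLipschitzRetract (Y X : Type) [NormedAddCommGroup Y] [NormedSpace ℝ Y]
    [NormedAddCommGroup X] [NormedSpace ℝ X] : Prop :=
  ∃ (i : Y →L[ℝ] X) (r : X → Y) (L : ℝ≥0), LipschitzWith L r ∧ ∀ y, r (i y) = y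

/-- `Y` is linearly isomorphic to a complemented subspace of `X`. -/
def IsComplemented (Y X : Type) [NormedAddCommGroup Y] [NormedSpace ℝ Y]
    [NormedAddCommGroup X] [NormedSpace ℝ X] : Prop :=
  ∃ (a : Y →L[ℝ] X) (b : X →L[ℝ] Y), ∀ y, b (a y) = y

/-- There is a Lipschitz retraction of the bidual of `Y` onto `Y`. -/
def IsLipschitzRetractOfBidual (Y : Type) [NormedAddCommGroup Y] [NormedSpace ℝ Y] : Prop :=
  ∃ (ρ : StrongDual ℝ (StrongDual ℝ Y) → Y) (L : ℝ≥0), LipschitzWith L ρ ∧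
    ∀ y, ρ (inclusionInDoubleDual ℝ Y y) = y

/-- There is a bounded linear projection of the bidual of `Y` onto `Y`. -/
def IsComplementedInBidual (Y : Type) [NormedAddCommGroup Y] [NormedSpace ℝ Y] : Prop :=
  ∃ P : StrongDual ℝ (StrongDual ℝ Y) →L[ℝ] Y, ∀ y, P (inclusionInDoubleDual ℝ Y y) = y

/-- `(F, δ)` is a Lipschitz-free space of `X`, up to renorming: `δ` is Lipschitz, vanishes at `0`,
has dense linear span, and every Lipschitz map from `X` to a Banach space which vanishes at `0`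
factors through `δ` by a bounded linear operator. This determines `(F, δ)` up to isomorphism. -/
def IsFreeSpace (X F : Type) [NormedAddCommGroup X] [NormedAddCommGroup F] [NormedSpace ℝ F]
    (δ : X → F) : Prop :=
  δ 0 = 0 ∧ (∃ K : ℝ≥0, LipschitzWith K δ) ∧
    Dense ((Submodule.span ℝ (Set.range δ) : Submodule ℝ F) : Set F) ∧
    ∀ (V : Type) [NormedAddCommGroup V] [NormedSpace ℝ V] [CompleteSpace V] (f : X → V)
      (K : ℝ≥0), LipschitzWith K f → f 0 = 0 → ∃ T : F →L[ℝ] V, ∀ x, T (δ x) = f x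

/-- The Lipschitz-free spaces of `X` and `Y` are linearly isomorphic. -/
def HaveIsomorphicFreeSpaces (X Y : Type) [NormedAddCommGroup X] [NormedAddCommGroup Y] : Prop :=
  ∃ (F : Type) (_ : NormedAddCommGroup F) (_ : NormedSpace ℝ F) (_ : CompleteSpace F)
    (δ : X → F) (δ' : Y → F), IsFreeSpace X F δ ∧ IsFreeSpace Y F δ'

/-- The space `ℓ₁`. -/
abbrev Ell : Type := lp (fun _ : ℕ => ℝ) 1

theorem isFreeSpace_lipFree (X : Type) [NormedAddCommGroup X] :
    IsFreeSpace X (LipFree X) dl := by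
  refine ⟨dl_zero, ⟨1, ?_⟩, ?_, ?_⟩
  · apply LipschitzWith.of_dist_le_mul
    intro x y
    rw [dist_eq_norm, dist_eq_norm, NNReal.coe_one, one_mul]
    exact norm_dl_sub_le x y
  · have h1 : (Set.range (comb : (X →₀ ℝ) →ₗ[ℝ] LipFree X)) ⊆
        ((Submodule.span ℝ (Set.range (dl : X → LipFree X)) : Submodule ℝ (LipFree X)) :
          Set (LipFree X)) := by
      rintro _ ⟨a, rfl⟩
      exact Finsupp.mem_span_range_iff_exists_finsupp.2 ⟨a, rfl⟩
    exact denseRange_comb.mono h1
  · intro V _ _ _ f K hf h0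
    exact ⟨lift f, fun x => lift_dl hf h0 x⟩

theorem isFreeSpace_equiv {X F G : Type} [NormedAddCommGroup X] [NormedAddCommGroup F]
    [NormedSpace ℝ F] [NormedAddCommGroup G] [NormedSpace ℝ G] {δ : X → F}
    (h : IsFreeSpace X F δ) (e : F ≃L[ℝ] G) : IsFreeSpace X G (fun x => e (δ x)) := by
  obtain ⟨h0, ⟨K, hK⟩, hd, hu⟩ := h
  refine ⟨by show e (δ 0) = 0; rw [h0, map_zero],
    ⟨_, (e : F →L[ℝ] G).lipschitz.comp hK⟩, ?_, ?_⟩
  · have h1 : ((Submodule.span ℝ (Set.range fun x => e (δ x)) : Submodule ℝ G) : Set G) =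
        e '' ((Submodule.span ℝ (Set.range δ) : Submodule ℝ F) : Set F) := by
      have h2 : (Set.range fun x => e (δ x)) = (e : F →ₗ[ℝ] G) '' Set.range δ := by
        rw [← Set.range_comp]
        rfl
      rw [h2, ← Submodule.map_span]
      rfl
    rw [h1]
    exact e.surjective.denseRange.dense_image e.continuous hd
  · intro V _ _ _ f K hf hf0
    obtain ⟨T, hT⟩ := hu V f K hf hf0
    refine ⟨T.comp (e.symm : G →L[ℝ] F), fun x => ?_⟩
    show T (e.symm (e (δ x))) = f x
    rw [e.symm_apply_apply, hT]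

/-- There is a Banach space `Y` such that
* `Y` embeds linearly into `ℓ₁` and is a Lipschitz retract of `ℓ₁` under this embedding;
* `ℓ₁` is linearly isomorphic to a complemented subspace of `Y`;
* `Y` is a Lipschitz retract of its bidual;
* the duals of `Y` and `ℓ₁` are isomorphic;
* the Lipschitz-free spaces of `Y` and `ℓ₁` are isomorphic;
* but `Y` is neither complemented in its bidual nor isomorphic to a dual space. -/
theorem result :
    ∃ (Y : Type) (_ : NormedAddCommGroup Y) (_ : NormedSpace ℝ Y) (_ : CompleteSpace Y),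
      IsLipschitzRetract Y Ell ∧ IsComplemented Ell Y ∧ IsLipschitzRetractOfBidual Y ∧
      HaveIsomorphicDuals Y Ell ∧ HaveIsomorphicFreeSpaces Y Ell ∧
      ¬ IsComplementedInBidual Y ∧ ¬ IsDualSpace Y := by
  have hcomp : CompleteSpace (Pool.Agent.H23.ker Pool.Agent.H36.MR.split) :=
    (Pool.Agent.H23.isClosed_ker Pool.Agent.H36.MR.split).completeSpace_coe
  obtain ⟨i, r, L, hr, hri, a, b, hba⟩ := exists_maps
  have hnon : Nontrivial Ell :=
    ⟨Pool.Agent.H23.Ell1.e 0, 0, fun h => by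
      have h1 := norm_e 0
      rw [h, norm_zero] at h1
      exact zero_ne_one h1⟩
  obtain ⟨e⟩ := nonempty_lipFree_equiv i.lipschitz hr hri a.lipschitz b.lipschitz hba
  refine ⟨Pool.Agent.H23.ker Pool.Agent.H36.MR.split, inferInstance, inferInstance, hcomp,
    ⟨i, r, L, hr, hri⟩, ⟨a, b, hba⟩, ?_, nonempty_dual_ker_equiv,
    ⟨LipFree Ell, inferInstance, inferInstance, inferInstance, _, _,
      isFreeSpace_equiv (isFreeSpace_lipFree _) e, isFreeSpace_lipFree Ell⟩, ?_, ?_⟩
  · obtain ⟨L', ρ, hρ, hρy⟩ := bidual_retract i r hr hri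
    exact ⟨ρ, L', hρ, hρy⟩
  · rintro ⟨P, hP⟩
    exact ker_not_complemented P hP
  · rintro ⟨Z, _, _, ⟨e⟩⟩
    obtain ⟨P, hP⟩ := complemented_of_dual e
    exact ker_not_complemented P hP

end Pool.Agent.Results.MP_1c6527_an.MutualRetracts
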