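import Mathlib
import Pool.Agent.H4.SD.Defs
import Pool.Agent.H4.SD.Fin

/-!
# Lipschitz rigidity of separable dual spaces for small distortion
-/

namespace Pool.Agent.Results.MP_1c6527_an.SmallDistortion

open Pool.Agent.H4.SD TopologicalSpace

/-- Let `X` be a Banach space which is separable, isomorphic to a dual space and to `ℓ_p(X)` for
some `1 ≤ p < ∞`, and which has a bidual projection with constant `k`; or let `k = 2` and let `X` be
linearly isometric to `ℓ₁`. If some nonempty open subset of a Banach space `Y` is bi-Lipschitz
homeomorphic to an open subset of `X` with distortion less than `k`, then `Y` is isomorphic to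
`X`. -/
theorem result (X Y : Type) [NormedAddCommGroup X] [NormedSpace ℝ X] [CompleteSpace X]
    [NormedAddCommGroup Y] [NormedSpace ℝ Y] [CompleteSpace Y] (k : ℝ)
    (h : (SeparableSpace X ∧ IsDualSpace X ∧ HasProjection X k ∧ IsStable X) ∨
      (k = 2 ∧ ∃ T : X → ℕ → ℝ, IsSum 1 1 T))
    (he : Close X Y k) : Iso Y X :=
  main X Y k h he

end Pool.Agent.Results.MP_1c6527_an.SmallDistortion
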